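import Pool.Agent.H707R3.TowerL
import Pool.Agent.H639R3.Z.Gal
import Pool.Agent.H623R3.ZT.CharProd

set_option autoImplicit false

/-!
The places of a finite abelian extension of function fields over an unramified place.
-/

namespace Pool.Agent.H623R3.ZT

open Pool.Agent.H707R3

section res

variable {F K : Type} [Field F] [Field K]

/-- the restriction of a field homomorphism to valuation rings -/
noncomputable def vmap (O : ValuationSubring F) (W : ValuationSubring K) (f : F →+* K)
    (h : ∀ a, a ∈ O ↔ f a ∈ W) : O →+* W :=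
  (f.comp O.subtype).codRestrict W.toSubring fun a => (h a).mp a.2

theorem vmap_local (O : ValuationSubring F) (W : ValuationSubring K) (f : F →+* K)
    (h : ∀ a, a ∈ O ↔ f a ∈ W) : IsLocalHom (vmap O W f h) := by
  constructor
  intro a ha
  have ha0 : (a : F) ≠ 0 := by
    intro h0
    have h1 : vmap O W f h a = 0 := by
      apply Subtype.ext
      change f (a : F) = 0
      rw [h0, map_zero]
    rw [h1] at ha
    exact not_isUnit_zero ha
  obtain ⟨c, hc⟩ := ha.exists_right_inv
  have h2 : f (a : F) * (c : K) = 1 := congrArg Subtype.val hc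
  have h3 : (c : K) = f ((a : F)⁻¹) := by
    rw [map_inv₀]
    exact eq_inv_of_mul_eq_one_right h2
  have h4 : (a : F)⁻¹ ∈ O := by
    rw [h, ← h3]
    exact c.2
  refine IsUnit.of_mul_eq_one ⟨(a : F)⁻¹, h4⟩ ?_
  apply Subtype.ext
  change (a : F) * (a : F)⁻¹ = 1
  exact mul_inv_cancel₀ ha0

/-- the induced map of residue fields -/
noncomputable def rmap (O : ValuationSubring F) (W : ValuationSubring K) (f : F →+* K)
    (h : ∀ a, a ∈ O ↔ f a ∈ W) :
    IsLocalRing.ResidueField O →+* IsLocalRing.ResidueField W :=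
  @IsLocalRing.ResidueField.map _ _ _ _ _ _ (vmap O W f h) (vmap_local O W f h)

theorem rmap_residue (O : ValuationSubring F) (W : ValuationSubring K) (f : F →+* K)
    (h : ∀ a, a ∈ O ↔ f a ∈ W) (a : O) :
    rmap O W f h (IsLocalRing.residue O a) = IsLocalRing.residue W (vmap O W f h a) := rfl

theorem residue_zero_iff (O : ValuationSubring F) (x : O) :
    IsLocalRing.residue O x = 0 ↔ O.valuation (x : F) < 1 := by
  rw [IsLocalRing.residue_eq_zero_iff, ← ValuationSubring.valuation_lt_one_iff]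

end res

variable {k F K : Type} [Field k] [Field F] [Algebra k F] [Field K] [Algebra F K] [Algebra k K]
  [IsScalarTower k F K]

omit [Algebra k K] [IsScalarTower k F K] in
/-- conjugacy of the valuation rings over a place -/
theorem exists_conj [Finite k] (hF : IsCurveFunctionField k F) [IsGalois F K]
    (v : Place k F) (W W' : ValuationSubring K) (h : W.comap (algebraMap F K) = v.ring)
    (h' : W'.comap (algebraMap F K) = v.ring) :
    ∃ σ : K ≃ₐ[F] K, ∀ a, a ∈ W' ↔ σ a ∈ W := by
  obtain ⟨t, D, D', _, hD⟩ := exists_two_models hF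
  have main : ∀ D : DedModel k F, (∀ b ∈ D.B, b ∈ v.ring) →
      ∃ σ : K ≃ₐ[F] K, ∀ a, a ∈ W' ↔ σ a ∈ W := by
    intro D hD
    have := D.ded
    have := D.frac
    refine Pool.Agent.H639R3.exists_aut (F := F) (A := D.B) W W' ?_ ?_ ?_
    · intro a
      have h1 : ((a : D.B) : F) ∈ W.comap (algebraMap F K) := by
        rw [h]
        exact hD _ a.2
      exact h1
    · rw [h]; exact v.ne_top
    · rw [h, h']
  rcases hD v with h1 | h1
  · exact main D h1
  · exact main D' h1

omit [IsScalarTower k F K] in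
/-- the residue action of the stabilizer of a valuation ring over an unramified place with Frobenius
element `σ` -/
theorem local_structure [Finite k] (hF : IsCurveFunctionField k F)
    (hK : IsCurveFunctionField k K) [FiniteDimensional F K]
    (v : Place k F) (W : Place k K) (hW : W.ring.comap (algebraMap F K) = v.ring)
    (hur : v.IsUnramified K) (σ : K ≃ₐ[F] K)
    (hσ : ∀ a ∈ W.ring, W.ring.valuation (σ a - a ^ Nat.card v.κ) < 1) :
    (∀ a, a ∈ W.ring ↔ σ a ∈ W.ring) ∧ Nat.card W.κ = Nat.card v.κ ^ orderOf σ ∧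
      ∀ g : K ≃ₐ[F] K, (∀ a, a ∈ W.ring ↔ g a ∈ W.ring) → g ∈ Subgroup.zpowers σ := by
  have hvfin : Finite v.κ := (card_residue' hF v).1
  have hWfin : Finite W.κ := (card_residue' hK W).1
  have : Fintype v.κ := Fintype.ofFinite _
  have : Fintype W.κ := Fintype.ofFinite _
  have hone : ∀ a ∈ W.ring, σ a ∈ W.ring := by
    intro a ha
    have h1 : σ a - a ^ Nat.card v.κ ∈ W.ring :=
      (ValuationSubring.valuation_le_one_iff _ _).1 (hσ a ha).le
    have h2 := W.ring.add_mem _ _ h1 (pow_mem ha (Nat.card v.κ))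
    rwa [sub_add_cancel] at h2
  have hpow : ∀ j : ℕ, ∀ a ∈ W.ring, (σ ^ j) a ∈ W.ring := by
    intro j
    induction j with
    | zero => intro a ha; simpa using ha
    | succ j ih =>
      intro a ha
      rw [pow_succ']
      exact hone _ (ih a ha)
  have hfinG : Finite (K ≃ₐ[F] K) := inferInstance
  have hstab : ∀ a, a ∈ W.ring ↔ σ a ∈ W.ring := by
    intro a
    refine ⟨hone a, fun h => ?_⟩
    have h1 := hpow (orderOf σ - 1) (σ a) h
    have h2 : (σ ^ (orderOf σ - 1)) (σ a) = a := by
      rw [← AlgEquiv.mul_apply, ← pow_succ, Nat.sub_add_cancel (orderOf_pos σ), pow_orderOf_eq_one]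
      rfl
    rwa [h2] at h1
  have hinc : ∀ a, a ∈ v.ring ↔ algebraMap F K a ∈ W.ring := by
    intro a
    rw [← hW]
    rfl
  let i : v.κ →+* W.κ := rmap v.ring W.ring (algebraMap F K) hinc
  let _ : Algebra v.κ W.κ := i.toAlgebra
  have hmfin : Module.Finite v.κ W.κ := Module.Finite.of_finite
  -- the action on the residue field
  have hact : ∀ (g : K ≃ₐ[F] K) (hg : ∀ a, a ∈ W.ring ↔ g a ∈ W.ring), ∃ φ : W.κ →ₐ[v.κ] W.κ,
      ∀ a (ha : a ∈ W.ring), φ (IsLocalRing.residue W.ring ⟨a, ha⟩) =
        IsLocalRing.residue W.ring ⟨g a, (hg a).1 ha⟩ := by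
    intro g hg
    have hgg : ∀ a, a ∈ W.ring ↔ (g : K →+* K) a ∈ W.ring := hg
    refine ⟨{ rmap W.ring W.ring (g : K →+* K) hgg with
      commutes' := ?_ }, ?_⟩
    · intro r
      obtain ⟨⟨b, hb⟩, rfl⟩ := IsLocalRing.residue_surjective r
      change rmap W.ring W.ring (g : K →+* K) hgg (rmap v.ring W.ring (algebraMap F K) hinc
          (IsLocalRing.residue v.ring ⟨b, hb⟩)) = rmap v.ring W.ring (algebraMap F K) hinc
          (IsLocalRing.residue v.ring ⟨b, hb⟩)
      rw [rmap_residue, rmap_residue]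
      congr 1
      apply Subtype.ext
      change g (algebraMap F K b) = algebraMap F K b
      exact g.commutes b
    · intro a ha
      rfl
  have h3 : ∀ j : ℕ, ∀ y : W.κ, ((FiniteField.frobeniusAlgHom v.κ W.κ) ^ j) y =
      y ^ (Nat.card v.κ) ^ j := by
    intro j
    induction j with
    | zero => intro y; simp
    | succ j ih =>
      intro y
      rw [pow_succ', AlgHom.mul_apply, ih, FiniteField.coe_frobeniusAlgHom,
        ← Nat.card_eq_fintype_card]
      change (y ^ Nat.card v.κ ^ j) ^ Nat.card v.κ = _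
      rw [← pow_mul, ← pow_succ]
  have hq : ∀ a (ha : a ∈ W.ring), IsLocalRing.residue W.ring ⟨σ a, hone a ha⟩ =
      (IsLocalRing.residue W.ring ⟨a, ha⟩) ^ Nat.card v.κ := by
    intro a ha
    rw [← sub_eq_zero, ← map_pow, ← map_sub, residue_zero_iff]
    exact hσ a ha
  have hqj : ∀ (j : ℕ) (a : K) (ha : a ∈ W.ring),
      IsLocalRing.residue W.ring ⟨(σ ^ j) a, hpow j a ha⟩ =
      (IsLocalRing.residue W.ring ⟨a, ha⟩) ^ (Nat.card v.κ) ^ j := by
    intro j
    induction j with
    | zero => intro a ha; simp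
    | succ j ih =>
      intro a ha
      have h1 := hq _ (hpow j a ha)
      rw [ih a ha, ← pow_mul, ← pow_succ] at h1
      rw [← h1]
      congr 2
      rw [pow_succ']
      rfl
  -- trivial action implies trivial
  have htriv : ∀ g : K ≃ₐ[F] K, (∀ a (ha : a ∈ W.ring) (ha' : g a ∈ W.ring),
      IsLocalRing.residue W.ring ⟨g a, ha'⟩ = IsLocalRing.residue W.ring ⟨a, ha⟩) →
      (∀ a ∈ W.ring, g a ∈ W.ring) → g = 1 := by
    intro g hg hg'
    apply hur W.ring hW
    intro a ha
    have h1 := hg a ha (hg' a ha)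
    rw [← sub_eq_zero, ← map_sub, residue_zero_iff] at h1
    exact h1
  set m := Module.finrank v.κ W.κ with hm
  have hmpos : 0 < m := Module.finrank_pos
  have hcard : Nat.card W.κ = Nat.card v.κ ^ m := Module.natCard_eq_pow_finrank
  have hord : orderOf σ = m := by
    apply Nat.dvd_antisymm
    · rw [orderOf_dvd_iff_pow_eq_one]
      apply htriv
      · intro a ha ha'
        have h1 := hqj m a ha
        rw [← hcard, Nat.card_eq_fintype_card, FiniteField.pow_card] at h1
        exact h1
      · exact hpow m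
    · have hb := FiniteField.bijective_frobeniusAlgHom_pow v.κ W.κ
      have h1 : (FiniteField.frobeniusAlgHom v.κ W.κ) ^ (orderOf σ) = 1 := by
        apply AlgHom.ext
        intro x
        obtain ⟨⟨a, ha⟩, rfl⟩ := IsLocalRing.residue_surjective x
        have h2 := hqj (orderOf σ) a ha
        rw [h3, ← h2]
        change _ = IsLocalRing.residue W.ring ⟨a, ha⟩
        congr 2
        rw [pow_orderOf_eq_one]
        rfl
      rw [← orderOf_dvd_iff_pow_eq_one, FiniteField.orderOf_frobeniusAlgHom] at h1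
      exact h1
  refine ⟨hstab, by rw [hord, hcard], ?_⟩
  intro g hg
  obtain ⟨φ, hφ⟩ := hact g hg
  obtain ⟨⟨j, hj⟩, hj'⟩ := (FiniteField.bijective_frobeniusAlgHom_pow v.κ W.κ).2 φ
  simp only at hj'
  have hginv : ∀ a ∈ W.ring, (σ ^ j)⁻¹ a ∈ W.ring := by
    intro a ha
    have h1 : (σ ^ j)⁻¹ = σ ^ (j * (orderOf σ - 1)) := by
      rw [inv_eq_iff_mul_eq_one, ← pow_add]
      have h4 : j + j * (orderOf σ - 1) = orderOf σ * j := by
        obtain ⟨r, hr⟩ : ∃ r, orderOf σ = r + 1 := ⟨orderOf σ - 1, by have := orderOf_pos σ; omega⟩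
        rw [hr, Nat.add_sub_cancel]
        ring
      rw [h4, pow_mul, pow_orderOf_eq_one, one_pow]
    rw [h1]
    exact hpow _ a ha
  have hτmem : ∀ a ∈ W.ring, ((σ ^ j)⁻¹ * g) a ∈ W.ring := by
    intro a ha
    exact hginv _ ((hg a).1 ha)
  have hτ : (σ ^ j)⁻¹ * g = 1 := by
    apply htriv _ _ hτmem
    intro a ha ha'
    have h4 := hqj j _ ha'
    have h5 : (σ ^ j) (((σ ^ j)⁻¹ * g) a) = g a := by
      rw [← AlgEquiv.mul_apply, mul_inv_cancel_left]
    have h6 := hφ a ha
    rw [← hj', h3] at h6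
    have h7 : IsLocalRing.residue W.ring ⟨(σ ^ j) (((σ ^ j)⁻¹ * g) a), hpow j _ ha'⟩ =
        IsLocalRing.residue W.ring ⟨g a, (hg a).1 ha⟩ := by
      congr 2
    rw [h7, ← h6, ← h3, ← h3] at h4
    exact (((FiniteField.frobeniusAlgHom v.κ W.κ) ^ j).toRingHom.injective h4).symm
  rw [Subgroup.mem_zpowers_iff]
  refine ⟨j, ?_⟩
  rw [zpow_natCast]
  exact (inv_mul_eq_one.mp hτ)

/-- The places of `K` over the place `v` of `F`. -/
def placesOver (K : Type) [Field K] [Algebra F K] [Algebra k K] (v : Place k F) :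
    Set (Place k K) := {w | w.ring.comap (algebraMap F K) = v.ring}

/-- the place given by a valuation ring over a place -/
def mkPlace (v : Place k F) (W : ValuationSubring K) (hW : W.comap (algebraMap F K) = v.ring) :
    Place k K where
  ring := W
  const_mem := by
    intro a
    have h1 := v.const_mem a
    rw [← hW, ValuationSubring.mem_comap, ← IsScalarTower.algebraMap_apply] at h1
    exact h1
  ne_top := by
    rintro rfl
    apply v.ne_top
    rw [← hW]
    rfl

omit [Algebra k F] [Algebra k K] [IsScalarTower k F K] [Field k] in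
theorem val_lt_transport (W W' : ValuationSubring K) (τ : K ≃ₐ[F] K)
    (h : ∀ a, a ∈ W' ↔ τ a ∈ W) (x : K) (hx : W.valuation (τ x) < 1) : W'.valuation x < 1 := by
  rw [Pool.Agent.H639R3.val_lt_one_iff] at hx ⊢
  rcases hx with hx | hx
  · exact Or.inl ((map_eq_zero_iff τ τ.injective).1 hx)
  · right
    rw [h, map_inv₀]
    exact hx

omit [Algebra k K] [IsScalarTower k F K] in
/-- Frobenius elements are Frobenius elements for all valuation rings over the place. -/
theorem frob_all [Finite k] (hF : IsCurveFunctionField k F) [IsGalois F K]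
    (hab : ∀ σ τ : K ≃ₐ[F] K, σ * τ = τ * σ) (v : Place k F) (σ : K ≃ₐ[F] K) (hσ : v.IsFrob σ)
    (W : ValuationSubring K) (hW : W.comap (algebraMap F K) = v.ring) :
    ∀ a ∈ W, W.valuation (σ a - a ^ Nat.card v.κ) < 1 := by
  obtain ⟨W₀, hW₀, hσ₀⟩ := hσ
  obtain ⟨τ, hτ⟩ := exists_conj hF v W₀ W hW₀ hW
  intro a ha
  apply val_lt_transport W₀ W τ hτ
  have h1 := hσ₀ (τ a) ((hτ a).1 ha)
  have h2 : σ (τ a) = τ (σ a) := by
    rw [← AlgEquiv.mul_apply, hab, AlgEquiv.mul_apply]
  rw [map_sub, map_pow, ← h2]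
  exact h1

open scoped Pointwise in
/-- **Number and degrees of the places over an unramified place** in a finite abelian extension:
with `f` the order of the Frobenius element there are `[K : F] / f` of them, each of degree
`f * deg v`. -/
theorem places_over [Finite k] (hF : IsCurveFunctionField k F)
    (hK : IsCurveFunctionField k K) [FiniteDimensional F K] [IsGalois F K]
    (hab : ∀ σ τ : K ≃ₐ[F] K, σ * τ = τ * σ) (v : Place k F)
    (hur : v.IsUnramified K) (σ : K ≃ₐ[F] K) (hσ : v.IsFrob σ) :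
    (∀ w ∈ placesOver K v, w.deg = orderOf σ * v.deg) ∧ (placesOver K v).Finite ∧
      (placesOver K v).ncard * orderOf σ = Nat.card (K ≃ₐ[F] K) := by
  have hloc := fun w (hw : w ∈ placesOver K v) => local_structure hF hK v w hw hur σ
    (frob_all hF hab v σ hσ w.ring hw)
  obtain ⟨W₀, hW₀, hσ₀⟩ := id hσ
  set w₀ : Place k K := mkPlace v W₀ hW₀ with hw₀
  have hw₀m : w₀ ∈ placesOver K v := hW₀
  have hinj : Function.Injective (fun w : Place k K => w.ring) := fun a b hab =>
    Place.ext_ring hab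
  have himage : (fun w : Place k K => w.ring) '' placesOver K v =
      MulAction.orbit (K ≃ₐ[F] K) W₀ := by
    ext W
    constructor
    · rintro ⟨w, hw, rfl⟩
      obtain ⟨τ, hτ⟩ := exists_conj hF v W₀ w.ring hW₀ hw
      refine ⟨τ⁻¹, ?_⟩
      ext a
      rw [hτ]
      change a ∈ τ⁻¹ • W₀ ↔ _
      rw [ValuationSubring.mem_pointwise_smul_iff_inv_smul_mem, inv_inv]
      rfl
    · rintro ⟨τ, rfl⟩
      have h1 : (τ • W₀).comap (algebraMap F K) = v.ring := by
        rw [← hW₀]
        ext a
        rw [ValuationSubring.mem_comap, ValuationSubring.mem_comap,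
          ValuationSubring.mem_pointwise_smul_iff_inv_smul_mem]
        change τ⁻¹ (algebraMap F K a) ∈ W₀ ↔ _
        rw [AlgEquiv.commutes]
      exact ⟨mkPlace v (τ • W₀) h1, h1, rfl⟩
  have hstab : MulAction.stabilizer (K ≃ₐ[F] K) W₀ = Subgroup.zpowers σ := by
    have hmem : ∀ g : K ≃ₐ[F] K, g ∈ MulAction.stabilizer (K ≃ₐ[F] K) W₀ ↔
        ∀ a, a ∈ W₀ ↔ g a ∈ W₀ := by
      intro g
      rw [MulAction.mem_stabilizer_iff]
      constructor
      · intro h a
        have h1 := ValuationSubring.smul_mem_pointwise_smul_iff (g := g) (S := W₀) (x := a)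
        rw [h] at h1
        exact h1.symm
      · intro h
        ext a
        rw [ValuationSubring.mem_pointwise_smul_iff_inv_smul_mem, h]
        change g (g⁻¹ a) ∈ W₀ ↔ _
        rw [← AlgEquiv.mul_apply, mul_inv_cancel]
        rfl
    apply le_antisymm
    · intro g hg
      rw [hmem] at hg
      exact (hloc w₀ hw₀m).2.2 g hg
    · rw [Subgroup.zpowers_le, hmem]
      exact (hloc w₀ hw₀m).1
  have hfinG : Finite (K ≃ₐ[F] K) := inferInstance
  have horb : (MulAction.orbit (K ≃ₐ[F] K) W₀).Finite := Set.finite_range _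
  have hfin : (placesOver K v).Finite := by
    rw [← himage] at horb
    exact horb.of_finite_image hinj.injOn
  refine ⟨?_, hfin, ?_⟩
  · intro w hw
    obtain ⟨-, h1, -⟩ := hloc w hw
    obtain ⟨-, h2, -⟩ := card_residue' hF v
    obtain ⟨-, h3, -⟩ := card_residue' hK w
    rw [h2, h3, ← pow_mul] at h1
    have hk : 2 ≤ Nat.card k := Finite.one_lt_card
    rw [mul_comm]
    exact Nat.pow_right_injective hk h1
  · have h1 : (placesOver K v).ncard = (MulAction.orbit (K ≃ₐ[F] K) W₀).ncard := by
      rw [← himage, Set.ncard_image_of_injective _ hinj]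
    rw [h1, ← MulAction.index_stabilizer, hstab, ← Nat.card_zpowers, Subgroup.index_mul_card]

theorem comm_of_cyclic {G : Type*} [Group G] [IsCyclic G] (a b : G) : a * b = b * a := by
  let _ := IsCyclic.commGroup (α := G)
  exact mul_comm a b

open PowerSeries in
/-- The Euler factors over an unramified place in a finite cyclic extension. -/
theorem prod_placesOver [Finite k] (hF : IsCurveFunctionField k F)
    (hK : IsCurveFunctionField k K) [FiniteDimensional F K] [IsGalois F K]
    [IsCyclic (K ≃ₐ[F] K)] (v : Place k F)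
    (hur : v.IsUnramified K) (σ : K ≃ₐ[F] K) (hσ : v.IsFrob σ)
    {Ω : Type*} [Field Ω] [IsAlgClosed Ω] [CharZero Ω] :
    ∏ᶠ w ∈ placesOver K v, (1 - X ^ w.deg : PowerSeries Ω) =
      ∏ᶠ χ : (K ≃ₐ[F] K) →* Ωˣ, (1 - C ((χ σ : Ωˣ) : Ω) * X ^ v.deg) := by
  obtain ⟨h1, h2, h3⟩ := places_over hF hK comm_of_cyclic v hur σ hσ
  have hfinG : Finite (K ≃ₐ[F] K) := inferInstance
  rw [finprod_char, ← h3, Nat.mul_div_cancel _ (orderOf_pos σ),
    finprod_mem_eq_finite_toFinset_prod _ h2, Set.ncard_eq_toFinset_card _ h2]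
  rw [Finset.prod_congr rfl (g := fun _ => (1 - (X ^ v.deg) ^ orderOf σ : PowerSeries Ω))]
  · rw [Finset.prod_const]
  · intro w hw
    rw [Set.Finite.mem_toFinset] at hw
    rw [h1 w hw, ← pow_mul, mul_comm]

end Pool.Agent.H623R3.ZT
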