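import Pool.Agent.H623R3.ZT.CharProd
import Pool.Agent.H707R3.TowerL

set_option autoImplicit false

/-!
Characters of a group isomorphic to the p-adic integers of order dividing a power of `p`.
-/

open PowerSeries

namespace Pool.Agent.H623R3.ZT

theorem finite_chars (G : Type*) [Group G] [Finite G] {Ω : Type*} [Field Ω] :
    Finite (G →* Ωˣ) := by
  have : NeZero (Nat.card G) := ⟨Nat.card_pos.ne'⟩
  let f : (G →* Ωˣ) → (G → rootsOfUnity (Nat.card G) Ω) := fun χ g =>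
    ⟨χ g, by rw [mem_rootsOfUnity, ← map_pow, pow_card_eq_one', map_one]⟩
  have hf : Function.Injective f := by
    intro χ χ' h
    ext g
    have h1 := congrArg (fun z => ((z g).1 : Ωˣ)) h
    exact congrArg Units.val h1
  exact Finite.of_injective f hf

variable {p : ℕ} [Fact p.Prime] {F E : Type} [Field F] [Field E] [Algebra F E]

section

variable (Φ : (E ≃ₐ[F] E) ≃ₜ* Multiplicative ℤ_[p]) (n : ℕ) (K : IntermediateField F E)
  [IsGalois F E] [FiniteDimensional F K] [IsGalois F K]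
  (hker : ∀ s : E ≃ₐ[F] E, s ∈ K.fixingSubgroup ↔ (p : ℤ_[p]) ^ n ∣ (Φ s).toAdd)

include hker in
theorem pow_mem_fixing (s : E ≃ₐ[F] E) : s ^ p ^ n ∈ K.fixingSubgroup := by
  rw [hker]
  have h1 : (Φ (s ^ p ^ n)).toAdd = (p : ℤ_[p]) ^ n * (Φ s).toAdd := by
    rw [map_pow, toAdd_pow, nsmul_eq_mul]
    push_cast
    rfl
  rw [h1]
  exact dvd_mul_right _ _

include hker in
theorem eq_pow_of_mem_fixing (s : E ≃ₐ[F] E) (hs : s ∈ K.fixingSubgroup) :
    ∃ t : E ≃ₐ[F] E, t ^ p ^ n = s := by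
  rw [hker] at hs
  obtain ⟨c, hc⟩ := hs
  refine ⟨Φ.symm (Multiplicative.ofAdd c), ?_⟩
  apply Φ.injective
  rw [map_pow]
  change (Φ (Φ.symm (Multiplicative.ofAdd c))) ^ p ^ n = _
  rw [ContinuousMulEquiv.apply_symm_apply]
  apply Multiplicative.toAdd.injective
  rw [toAdd_pow, toAdd_ofAdd, hc, nsmul_eq_mul]
  push_cast
  rfl

include hker in
/-- The characters of order dividing `p ^ n` are the characters of the layer. -/
theorem bij_chars {Ω : Type*} [Field Ω] : Set.BijOn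
    (fun ψ : (K ≃ₐ[F] K) →* Ωˣ => ψ.comp (AlgEquiv.restrictNormalHom K : (E ≃ₐ[F] E) →* _))
    Set.univ {χ : (E ≃ₐ[F] E) →* Ωˣ | orderOf χ ∣ p ^ n} := by
  have hsurj : Function.Surjective (AlgEquiv.restrictNormalHom K : (E ≃ₐ[F] E) →* (K ≃ₐ[F] K)) :=
    AlgEquiv.restrictNormalHom_surjective E
  have hk : (AlgEquiv.restrictNormalHom K : (E ≃ₐ[F] E) →* (K ≃ₐ[F] K)).ker = K.fixingSubgroup :=
    IntermediateField.restrictNormalHom_ker K
  refine ⟨?_, ?_, ?_⟩
  · intro ψ _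
    change orderOf _ ∣ p ^ n
    rw [orderOf_dvd_iff_pow_eq_one]
    ext s
    have h1 := pow_mem_fixing Φ n K hker s
    rw [← hk, MonoidHom.mem_ker, map_pow] at h1
    rw [MonoidHom.pow_apply, MonoidHom.comp_apply, ← map_pow, h1]
    simp
  · intro ψ _ ψ' _ h
    ext g
    obtain ⟨s, rfl⟩ := hsurj g
    have h1 := DFunLike.congr_fun h s
    exact congrArg Units.val h1
  · intro χ hχ
    have hχ' : orderOf χ ∣ p ^ n := hχ
    rw [orderOf_dvd_iff_pow_eq_one] at hχ'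
    have hle : (AlgEquiv.restrictNormalHom K : (E ≃ₐ[F] E) →* (K ≃ₐ[F] K)).ker ≤ χ.ker := by
      rw [hk]
      intro s hs
      obtain ⟨t, rfl⟩ := eq_pow_of_mem_fixing Φ n K hker s hs
      rw [MonoidHom.mem_ker, map_pow, ← MonoidHom.pow_apply, hχ', MonoidHom.one_apply]
    refine ⟨MonoidHom.liftOfSurjective _ hsurj ⟨χ, hle⟩, trivial, ?_⟩
    ext s
    simp only [MonoidHom.comp_apply]
    congr 1
    exact MonoidHom.liftOfRightInverse_comp_apply _ _ _ ⟨χ, hle⟩ s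

include hker in
/-- The characters of order dividing `p ^ n` form a finite set. -/
theorem finite_order_dvd (Ω : Type*) [Field Ω] :
    {χ : (E ≃ₐ[F] E) →* Ωˣ | orderOf χ ∣ p ^ n}.Finite := by
  have hb := bij_chars Φ n K hker (Ω := Ω)
  have hfinG : Finite (K ≃ₐ[F] K) := inferInstance
  have hfin : Finite ((K ≃ₐ[F] K) →* Ωˣ) := finite_chars _
  rw [← hb.image_eq]
  exact Set.toFinite _

include hker in
/-- The product of `1 - χ(σ) T` over the characters of the layer, in terms of the characters of the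
whole group. -/
theorem prod_layer_chars {Ω : Type*} [Field Ω] (σ : E ≃ₐ[F] E) (T : PowerSeries Ω) :
    ∏ᶠ ψ : (K ≃ₐ[F] K) →* Ωˣ,
        (1 - C ((ψ (AlgEquiv.restrictNormalHom K σ) : Ωˣ) : Ω) * T) =
    ∏ χ ∈ (finite_order_dvd Φ n K hker Ω).toFinset, (1 - C ((χ σ : Ωˣ) : Ω) * T) := by
  have hb := bij_chars Φ n K hker (Ω := Ω)
  have h1 := finprod_mem_eq_of_bijOn (f := fun ψ : (K ≃ₐ[F] K) →* Ωˣ =>
    (1 - C ((ψ (AlgEquiv.restrictNormalHom K σ) : Ωˣ) : Ω) * T)) (g := fun χ =>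
    (1 - C ((χ σ : Ωˣ) : Ω) * T)) (fun ψ : (K ≃ₐ[F] K) →* Ωˣ =>
      ψ.comp (AlgEquiv.restrictNormalHom K : (E ≃ₐ[F] E) →* _)) hb (fun ψ _ => rfl)
  rw [finprod_mem_univ] at h1
  rw [h1]
  exact finprod_mem_eq_finite_toFinset_prod _ _

end

end Pool.Agent.H623R3.ZT
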