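import Pool.Agent.H623R3.ZT.Cong
import Pool.Agent.H387R3.ZT.Stmts

set_option autoImplicit false

/-!
The zeta series of a finite extension as a product over the places of the base.
-/

open PowerSeries

namespace Pool.Agent.H623R3.ZT

open Pool.Agent.H707R3

variable {k F K : Type} [Field k] [Field F] [Algebra k F] [Field K] [Algebra F K] [Algebra k K]
  [IsScalarTower k F K]

/-- the place of `F` below a place of `K` -/
def below [FiniteDimensional F K] (w : Place k K) : Place k F where
  ring := w.ring.comap (algebraMap F K)
  const_mem := by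
    intro a
    rw [ValuationSubring.mem_comap, ← IsScalarTower.algebraMap_apply]
    exact w.const_mem a
  ne_top := by
    intro h
    apply w.ne_top
    rw [eq_top_iff]
    intro a _
    apply Pool.Agent.H639R3.integral_mem (A := F) w.ring
    · intro b
      have h1 : b ∈ w.ring.comap (algebraMap F K) := by rw [h]; trivial
      exact h1
    · exact Algebra.IsIntegral.isIntegral a

theorem mem_placesOver_below [FiniteDimensional F K] (w : Place k K) (v : Place k F) :
    w ∈ placesOver K v ↔ below w = v := by
  constructor
  · intro h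
    exact Place.ext_ring h
  · rintro rfl
    rfl

theorem deg_below_le [Finite k] [FiniteDimensional F K] (hF : IsCurveFunctionField k F)
    (hK : IsCurveFunctionField k K) (w : Place k K) (v : Place k F) (h : w ∈ placesOver K v) :
    v.deg ≤ w.deg := by
  obtain ⟨-, h2, -⟩ := card_residue' hF v
  obtain ⟨h3', h3, -⟩ := card_residue' hK w
  have hinc : ∀ a, a ∈ v.ring ↔ algebraMap F K a ∈ w.ring := by
    intro a
    have h1 : w.ring.comap (algebraMap F K) = v.ring := h
    rw [← h1]
    rfl
  have h4 : Nat.card v.κ ≤ Nat.card w.κ :=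
    Nat.card_le_card_of_injective (rmap v.ring w.ring (algebraMap F K) hinc)
      (rmap v.ring w.ring (algebraMap F K) hinc).injective
  rw [h2, h3] at h4
  have hk : 1 < Nat.card k := Finite.one_lt_card
  exact (Nat.pow_le_pow_iff_right hk).1 h4

omit [IsScalarTower k F K] in
theorem placesOver_finite [Finite k] [FiniteDimensional F K] [IsGalois F K]
    (hF : IsCurveFunctionField k F) (v : Place k F) : (placesOver K v).Finite := by
  rcases (placesOver K v).eq_empty_or_nonempty with h | ⟨w₀, hw₀⟩
  · rw [h]; exact Set.finite_empty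
  have h1 : ∀ w : placesOver K v, ∃ σ : K ≃ₐ[F] K, ∀ a, a ∈ w.1.ring ↔ σ a ∈ w₀.ring :=
    fun w => exists_conj hF v w₀.ring w.1.ring hw₀ w.2
  choose f hf using h1
  have hinj : Function.Injective f := by
    intro w w' h
    apply Subtype.ext
    apply Place.ext_ring
    ext a
    rw [hf w a, hf w' a, h]
  have : Finite (placesOver K v) := Finite.of_injective f hinj
  exact Set.toFinite _

variable {p : ℕ} [Fact p.Prime]

/-- the Euler factor over `v` -/
noncomputable def locE (p : ℕ) [Fact p.Prime] (K : Type) [Field K] [Algebra F K] [Algebra k K]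
    (v : Place k F) : PowerSeries ℂ_[p] :=
  ∏ᶠ w ∈ placesOver K v, (1 - X ^ w.deg)⁻¹

open scoped PowerSeries.WithPiTopology in
theorem zeta_mod [Finite k] [FiniteDimensional F K] [IsGalois F K]
    (hF : IsCurveFunctionField k F) (hK : IsCurveFunctionField k K) (m : ℕ)
    (s : Finset (Place k F)) (hs : ∀ v : Place k F, v.deg ≤ m → v ∈ s) :
    (X : PowerSeries ℂ_[p]) ^ (m + 1) ∣ H387R3.ZT.zetaP p k K - ∏ v ∈ s, locE p K v := by
  classical
  have hfib : ∀ v : Place k F, (placesOver K v).Finite := fun v => placesOver_finite hF v
  let t : Finset (Place k K) := s.biUnion fun v => (hfib v).toFinset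
  have ht : ∀ w : Place k K, w ∈ t ↔ below w ∈ s := by
    intro w
    simp only [t, Finset.mem_biUnion, Set.Finite.mem_toFinset]
    constructor
    · rintro ⟨v, hv, hw⟩
      rw [mem_placesOver_below] at hw
      rw [hw]; exact hv
    · intro h
      exact ⟨below w, h, rfl⟩
  have h1 := tprod_mod (p := p) (fun _ : Place k K => (1 : ℂ_[p])) (fun w => w.deg)
    (fun w => deg_ne_zero hK w) (fun j => finite_deg_le hK j) m t (by
      intro w hw
      rw [ht]
      apply hs
      exact (deg_below_le hF hK w (below w) rfl).trans hw)
  simp only [map_one, one_mul] at h1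
  have h2 : ∏ w ∈ t, (1 - X ^ w.deg : PowerSeries ℂ_[p])⁻¹ = ∏ v ∈ s, locE p K v := by
    rw [Finset.prod_biUnion]
    · refine Finset.prod_congr rfl fun v _ => ?_
      rw [locE, finprod_mem_eq_finite_toFinset_prod _ (hfib v)]
    · intro v _ v' _ hvv
      rw [Function.onFun, Finset.disjoint_left]
      intro w hw hw'
      rw [Set.Finite.mem_toFinset, mem_placesOver_below] at hw hw'
      exact hvv (hw.symm.trans hw')
  rw [h2] at h1
  exact h1

end Pool.Agent.H623R3.ZT
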